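import Pool.Agent.Helper64.PQ.Goals

set_option autoImplicit false

open Topology Filter Set Metric UpperHalfPlane
open scoped MatrixGroups
open Pool.Agent.Helper64.PQ

namespace Pool.Agent.Helper20.PQ

lemma smul_coe (g : SL(2, ℝ)) (z : ℍ) :
    ((g • z : ℍ) : ℂ) = ((g 0 0 : ℝ) * z + (g 0 1 : ℝ)) / ((g 1 0 : ℝ) * z + (g 1 1 : ℝ)) := by
  rw [UpperHalfPlane.coe_specialLinearGroup_apply]
  rfl

lemma denom_ne (g : SL(2, ℝ)) (z : ℍ) : ((g 1 0 : ℝ) : ℂ) * z + ((g 1 1 : ℝ) : ℂ) ≠ 0 := by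
  have hdet : g 0 0 * g 1 1 - g 0 1 * g 1 0 = 1 := by
    have := g.2
    rw [Matrix.det_fin_two] at this
    exact this
  intro h
  have him := congrArg Complex.im h
  have hre := congrArg Complex.re h
  simp at him hre
  have hz : z.im ≠ 0 := z.im_pos.ne'
  rcases him with h1 | h1
  · rw [h1] at hre hdet
    simp at hre
    rw [hre] at hdet
    simp at hdet
  · exact hz h1

lemma continuous_vadd (f : ℝ → ℍ) (hf : Continuous f) : Continuous (fun t : ℝ => (t +ᵥ f t : ℍ)) := by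
  rw [UpperHalfPlane.isEmbedding_coe.continuous_iff]
  have h1 : Continuous fun t : ℝ => ((t : ℂ) + (f t : ℂ)) := by
    exact Complex.continuous_ofReal.add (UpperHalfPlane.continuous_coe.comp hf)
  exact h1

lemma continuous_const_vadd (n : ℝ) : Continuous (fun z : ℍ => (n +ᵥ z : ℍ)) :=
  (isometry_real_vadd n).continuous

/-- an element which is a translation near a point is a translation -/
lemma translation_of_eventually (M : SL(2, ℝ)) (n : ℤ) (p : ℍ)
    (h : ∀ᶠ z : ℍ in 𝓝 p, M • z = (n : ℝ) +ᵥ z) : ∀ z : ℍ, ((M • z : ℍ) : ℂ) = z + n := by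
  have hdet : M 0 0 * M 1 1 - M 0 1 * M 1 0 = 1 := by
    have := M.2
    rw [Matrix.det_fin_two] at this
    exact this
  set a : ℝ := M 0 0 with ha
  set b : ℝ := M 0 1 with hb
  set c : ℝ := M 1 0 with hc
  set d : ℝ := M 1 1 with hd
  -- three real translates of `p`
  have h1 : Tendsto (fun t : ℝ => (t +ᵥ p : ℍ)) (𝓝 0) (𝓝 p) := by
    have := continuous_vadd (fun _ => p) continuous_const
    have h2 := this.tendsto 0
    simpa using h2
  have h2 := h1.eventually h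
  obtain ⟨ε, hε, h3⟩ := Metric.eventually_nhds_iff.1 h2
  have key : ∀ t : ℝ, |t| < ε →
      (c : ℂ) * (t + p) ^ 2 + (d + n * c - a) * (t + p) + (n * d - b) = 0 := by
    intro t ht
    have h4 := h3 (y := t) (by simpa using ht)
    have h5 := congrArg (fun z : ℍ => (z : ℂ)) h4
    simp only [smul_coe, UpperHalfPlane.coe_vadd] at h5
    have h6 := denom_ne M (t +ᵥ p)
    rw [UpperHalfPlane.coe_vadd] at h6
    rw [div_eq_iff h6] at h5
    simp only [← ha, ← hb, ← hc, ← hd] at h5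
    push_cast at h5
    linear_combination -h5
  have hk0 := key 0 (by simpa using hε)
  have hk1 := key (ε / 2) (by rw [abs_of_pos (by linarith)]; linarith)
  have hk2 := key (-(ε / 2)) (by rw [abs_neg, abs_of_pos (by linarith)]; linarith)
  have hεC : ((ε : ℝ) : ℂ) ≠ 0 := by exact_mod_cast hε.ne'
  push_cast at hk0 hk1 hk2
  have hc0 : (c : ℂ) = 0 := by
    have : (c : ℂ) * (ε : ℂ) ^ 2 = 0 := by linear_combination 2 * hk1 + 2 * hk2 - 4 * hk0
    exact (mul_eq_zero.1 this).resolve_right (pow_ne_zero 2 hεC)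
  rw [hc0] at hk0 hk1 hk2
  have had : (d : ℂ) - a = 0 := by
    have : ((d : ℂ) - a) * (ε : ℂ) = 0 := by linear_combination hk1 - hk2
    exact (mul_eq_zero.1 this).resolve_right hεC
  have hbd : (n : ℂ) * d - b = 0 := by
    linear_combination hk0 - (0 + (p : ℂ)) * had
  have hd0 : (d : ℂ) ≠ 0 := by
    intro h0
    have h7 : d = 0 := by exact_mod_cast h0
    have h8 : c = 0 := by exact_mod_cast hc0
    rw [h7, h8] at hdet
    simp at hdet
  intro z
  rw [smul_coe, ← ha, ← hb, ← hc, ← hd, hc0]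
  rw [div_eq_iff (by simpa using hd0)]
  linear_combination -(z : ℂ) * had - hbd

section core

variable {X : Type*} [TopologicalSpace X] {S : Set X} {s : X} {U : ℍ → X}

/-- the shifted situation -/
structure Cov (S : Set X) (s : X) (U : ℍ → X) : Prop where
  cov : IsCoveringMapOn U S
  range : Set.range U = S
  deck : ∀ z w : ℍ, U z = U w → ∃ M : SL(2, ℝ), M • z = w ∧ ∀ v : ℍ, U (M • v) = U v
  lim : Filter.map U (comap UpperHalfPlane.im atTop) = 𝓝[≠] s
  par : ∀ z w : ℍ, 1 < z.im → 1 < w.im → (U z = U w ↔ ∃ n : ℤ, (w : ℂ) = z + n)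
  ns : s ∉ S

lemma Cov.mem (h : Cov S s U) (z : ℍ) : U z ∈ S := by
  rw [← h.range]
  exact mem_range_self z

lemma Cov.isLocalHomeomorph (h : Cov S s U) : IsLocalHomeomorph U := by
  rw [isLocalHomeomorph_iff_isLocalHomeomorphOn_univ]
  have h1 := h.cov.isLocalHomeomorphOn
  have h2 : U ⁻¹' S = univ := by
    ext z
    simpa using h.mem z
  rwa [h2] at h1

lemma Cov.unique (h : Cov S s U) {A : Type*} [TopologicalSpace A] [PreconnectedSpace A]
    {g₁ g₂ : A → ℍ} (h₁ : Continuous g₁) (h₂ : Continuous g₂) (he : ∀ a, U (g₁ a) = U (g₂ a))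
    (a : A) (ha : g₁ a = g₂ a) : g₁ = g₂ :=
  (T2Space.isSeparatedMap U).eq_of_comp_eq h.isLocalHomeomorph.isLocallyInjective h₁ h₂
    (funext he) a ha

lemma Cov.uniqueOn (h : Cov S s U) {A : Type*} [TopologicalSpace A] {B : Set A}
    (hB : IsPreconnected B)
    {g₁ g₂ : A → ℍ} (h₁ : ContinuousOn g₁ B) (h₂ : ContinuousOn g₂ B)
    (he : ∀ a ∈ B, U (g₁ a) = U (g₂ a))
    (a : A) (haB : a ∈ B) (ha : g₁ a = g₂ a) : EqOn g₁ g₂ B :=
  (T2Space.isSeparatedMap U).eqOn_of_comp_eqOn h.isLocalHomeomorph.isLocallyInjective hB h₁ h₂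
    (fun x hx => he x hx) haB ha

lemma Cov.translation (h : Cov S s U) (M : SL(2, ℝ)) (hM : ∀ v : ℍ, U (M • v) = U v) (p : ℍ)
    (hp : 1 < p.im) (hp' : 1 < (M • p).im) : ∃ n : ℤ, ∀ z : ℍ, ((M • z : ℍ) : ℂ) = z + n := by
  obtain ⟨n, hn⟩ := (h.par p (M • p) hp hp').1 (hM p).symm
  refine ⟨n, translation_of_eventually M n p ?_⟩
  have h0 : M • p = (n : ℝ) +ᵥ p := by
    apply UpperHalfPlane.ext
    rw [hn, UpperHalfPlane.coe_vadd]
    push_cast
    ring
  obtain ⟨N, hNo, hpN, hinj⟩ := h.isLocalHomeomorph.isLocallyInjective (M • p)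
  have h1 : ∀ᶠ z : ℍ in 𝓝 p, M • z ∈ N := by
    have : Continuous fun z : ℍ => M • z := continuous_const_smul M
    exact this.continuousAt.eventually (hNo.mem_nhds hpN)
  have h2 : ∀ᶠ z : ℍ in 𝓝 p, (n : ℝ) +ᵥ z ∈ N := by
    have := continuous_const_vadd (n : ℝ)
    refine this.continuousAt.eventually (hNo.mem_nhds ?_)
    change (n : ℝ) +ᵥ p ∈ N
    rw [← h0]
    exact hpN
  have h3 : ∀ᶠ z : ℍ in 𝓝 p, 1 < z.im :=
    UpperHalfPlane.continuous_im.continuousAt.eventually (lt_mem_nhds hp)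
  filter_upwards [h1, h2, h3] with z hz1 hz2 hz3
  apply hinj hz1 hz2
  rw [hM z]
  rw [(h.par z ((n : ℝ) +ᵥ z) hz3 (by simpa using hz3))]
  refine ⟨n, ?_⟩
  rw [UpperHalfPlane.coe_vadd]
  push_cast
  ring

/-- clamp the real part -/
noncomputable def psi (y : ℂ) : ℂ := ((min y.re 0 : ℝ) : ℂ) + (y.im : ℂ) * Complex.I

lemma continuous_psi : Continuous psi := by
  unfold psi
  fun_prop

lemma norm_exp_psi (y : ℂ) : ‖Complex.exp (psi y)‖ = Real.exp (min y.re 0) := by
  rw [Complex.norm_exp]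
  congr 1
  unfold psi
  simp

lemma norm_exp_psi_le (y : ℂ) : ‖Complex.exp (psi y)‖ ≤ 1 := by
  rw [norm_exp_psi, Real.exp_le_one_iff]
  exact min_le_right _ _

lemma psi_eq {y : ℂ} (hy : y.re ≤ 0) : psi y = y := by
  unfold psi
  rw [min_eq_left hy]
  exact Complex.re_add_im y

lemma exp_psi_add (y : ℂ) : Complex.exp (psi (y + 2 * Real.pi * Complex.I)) = Complex.exp (psi y) := by
  have : psi (y + 2 * Real.pi * Complex.I) = psi y + 2 * Real.pi * Complex.I := by
    unfold psi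
    simp
    ring
  rw [this, Complex.exp_add, Complex.exp_two_pi_mul_I, mul_one]

variable {J : OpenPartialHomeomorph ℂ X} {e ζ : ℂ} {R : ℝ}

lemma mem_disc (hζR : ‖ζ‖ ≤ R) (y : ℂ) :
    e + Complex.exp (psi y) * ζ ∈ closedBall e R := by
  rw [mem_closedBall, dist_eq_norm, add_sub_cancel_left, norm_mul]
  calc ‖Complex.exp (psi y)‖ * ‖ζ‖ ≤ 1 * ‖ζ‖ :=
        mul_le_mul_of_nonneg_right (norm_exp_psi_le y) (norm_nonneg _)
    _ ≤ R := by rw [one_mul]; exact hζR

lemma ne_centre (hζ : ζ ≠ 0) (y : ℂ) : e + Complex.exp (psi y) * ζ ≠ e := by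
  intro h
  have : Complex.exp (psi y) * ζ = 0 := by linear_combination h
  rcases mul_eq_zero.1 this with h1 | h1
  · exact Complex.exp_ne_zero _ h1
  · exact hζ h1

lemma exists_lift (h : Cov S s U) (hJ : closedBall e R ⊆ J.source) (hζ : ζ ≠ 0) (hζR : ‖ζ‖ ≤ R)
    (hJS : ∀ z ∈ closedBall e R, z ≠ e → J z ∈ S) (pt : ℍ) (hpt : U pt = J (e + ζ)) :
    ∃ F : C(ℂ, ℍ), F 0 = pt ∧ ∀ y, U (F y) = J (e + Complex.exp (psi y) * ζ) := by
  have hc : Continuous fun y : ℂ => J (e + Complex.exp (psi y) * ζ) := by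
    refine J.continuousOn.comp_continuous (s := J.source) ?_ ?_
    · have := continuous_psi
      fun_prop
    · intro y
      exact hJ (mem_disc hζR y)
  have h0 : U pt = (⟨fun y : ℂ => J (e + Complex.exp (psi y) * ζ), hc⟩ : C(ℂ, X)) 0 := by
    change U pt = J (e + Complex.exp (psi 0) * ζ)
    rw [hpt, psi_eq (by simp)]
    simp
  obtain ⟨F, ⟨hF0, hF⟩, -⟩ := h.cov.existsUnique_continuousMap_lifts
    (⟨fun y : ℂ => J (e + Complex.exp (psi y) * ζ), hc⟩ : C(ℂ, X)) h0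
    (fun y => hJS _ (mem_disc hζR y) (ne_centre hζ y))
  exact ⟨F, hF0, fun y => congrFun hF y⟩

lemma lift_real (h : Cov S s U) (F : C(ℂ, ℍ)) (pt : ℍ) (hF0 : F 0 = pt)
    (hF : ∀ y, U (F y) = J (e + Complex.exp (psi y) * ζ))
    (a : ℝ → ℍ) (ha : ContinuousOn a (Ico 0 1)) (ha0 : a 0 = pt)
    (hUa : ∀ x ∈ Ico (0 : ℝ) 1, U (a x) = J (e + (1 - x : ℝ) * ζ)) :
    ∀ x ∈ Ico (0 : ℝ) 1, F ((Real.log (1 - x) : ℝ) : ℂ) = a x := by
  have h1 : ContinuousOn (fun x : ℝ => F ((Real.log (1 - x) : ℝ) : ℂ)) (Ico 0 1) := by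
    refine F.continuous.comp_continuousOn (Complex.continuous_ofReal.comp_continuousOn ?_)
    refine ContinuousOn.log (by fun_prop) ?_
    intro x hx
    have := hx.2
    have : (0 : ℝ) < 1 - x := by linarith
    exact this.ne'
  have h2 := h.uniqueOn isPreconnected_Ico h1 ha (fun x hx => ?_) 0 (by simp) (by simp [hF0, ha0])
  · exact fun x hx => h2 hx
  · have hx1 : (0 : ℝ) < 1 - x := by have := hx.2; linarith
    rw [hF, hUa x hx, psi_eq]
    · rw [← Complex.ofReal_exp, Real.exp_log hx1]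
    · rw [Complex.ofReal_re]
      exact Real.log_nonpos hx1.le (by have := hx.1; linarith)

lemma lift_circle (h : Cov S s U) (F : C(ℂ, ℍ)) (pt : ℍ) (hF0 : F 0 = pt)
    (hF : ∀ y, U (F y) = J (e + Complex.exp (psi y) * ζ))
    (c : C(unitInterval, ℍ)) (hc0 : c 0 = pt)
    (hUc : ∀ t : unitInterval,
      U (c t) = J (e + Complex.exp (2 * Real.pi * Complex.I * (t : ℝ)) * ζ)) :
    F (2 * Real.pi * Complex.I) = c 1 := by
  have h1 : Continuous fun t : unitInterval => F (2 * Real.pi * Complex.I * ((t : ℝ) : ℂ)) := by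
    fun_prop
  have h2 := h.unique h1 c.continuous (fun t => ?_) 0 (by simp [hF0, hc0])
  · have := congrFun h2 1
    simpa using this
  · rw [hF, hUc t, psi_eq]
    simp

lemma lift_period (h : Cov S s U) (F : C(ℂ, ℍ))
    (hF : ∀ y, U (F y) = J (e + Complex.exp (psi y) * ζ)) (M : SL(2, ℝ))
    (hM : ∀ v : ℍ, U (M • v) = U v) (hM0 : M • F 0 = F (2 * Real.pi * Complex.I)) :
    ∀ y, F (y + 2 * Real.pi * Complex.I) = M • F y := by
  have h1 : Continuous fun y : ℂ => F (y + 2 * Real.pi * Complex.I) := by fun_prop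
  have h2 : Continuous fun y : ℂ => M • F y := (continuous_const_smul M).comp F.continuous
  have h3 := h.unique h1 h2 (fun y => ?_) 0 (by simp [hM0])
  · exact fun y => congrFun h3 y
  · rw [hM, hF, hF, exp_psi_add]

/-- small circles lift into the horoball -/
lemma circle_high (h : Cov S s U) (F : C(ℂ, ℍ)) (y0 : ℝ) (hF0 : 1 < (F (y0 : ℂ)).im)
    (hW : ∀ θ : ℝ, ∃ p : ℍ, 1 < p.im ∧ U p = U (F (y0 + θ * Complex.I))) :
    ∀ θ : ℝ, 1 < (F (y0 + θ * Complex.I)).im := by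
  have hcont : Continuous fun θ : ℝ => F ((y0 : ℂ) + θ * Complex.I) := by fun_prop
  set A : Set ℝ := {θ : ℝ | 1 < (F ((y0 : ℂ) + θ * Complex.I)).im} with hA
  have hopen : IsOpen A :=
    isOpen_lt continuous_const (UpperHalfPlane.continuous_im.comp hcont)
  have hclosed : IsClosed A := by
    rw [← isOpen_compl_iff, isOpen_iff_mem_nhds]
    intro θ hθ
    obtain ⟨p, hp, hUp⟩ := hW θ
    obtain ⟨γ, hγ, hγU⟩ := h.deck p _ hUp
    have h1 : Continuous fun θ' : ℝ => (γ⁻¹ • F ((y0 : ℂ) + θ' * Complex.I)).im :=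
      UpperHalfPlane.continuous_im.comp ((continuous_const_smul γ⁻¹).comp hcont)
    have h2 : 1 < (γ⁻¹ • F ((y0 : ℂ) + θ * Complex.I)).im := by
      rw [← hγ, inv_smul_smul]
      exact hp
    have h3 : ∀ᶠ θ' : ℝ in 𝓝 θ, 1 < (γ⁻¹ • F ((y0 : ℂ) + θ' * Complex.I)).im :=
      h1.continuousAt.eventually (lt_mem_nhds h2)
    filter_upwards [h3] with θ' hθ'
    intro hmem
    apply hθ
    have h4 : 1 < (γ • (γ⁻¹ • F ((y0 : ℂ) + θ' * Complex.I))).im := by
      rw [smul_inv_smul]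
      exact hmem
    obtain ⟨n, hn⟩ := h.translation γ hγU _ hθ' h4
    change 1 < (F ((y0 : ℂ) + θ * Complex.I)).im
    have h5 : (γ • p).im = p.im := by
      have := congrArg Complex.im (hn p)
      simpa using this
    rw [← hγ, h5]
    exact hp
  have huniv : A = univ := IsClopen.eq_univ ⟨hclosed, hopen⟩ ⟨0, by
    change 1 < (F ((y0 : ℂ) + ((0 : ℝ) : ℂ) * Complex.I)).im
    simpa using hF0⟩
  intro θ
  have : θ ∈ A := by rw [huniv]; trivial
  exact this

/-- the monodromy is non-trivial -/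
lemma not_periodic (h : Cov S s U) (hJ : closedBall e R ⊆ J.source) (hJe : J e = s)
    (hζ : ζ ≠ 0) (hζR : ‖ζ‖ ≤ R) (F : C(ℂ, ℍ))
    (hF : ∀ y, U (F y) = J (e + Complex.exp (psi y) * ζ))
    (hper : ∀ y, F (y + 2 * Real.pi * Complex.I) = F y) : False := by
  have hperk : ∀ (k : ℕ) (y : ℂ), F (y + k * (2 * Real.pi * Complex.I)) = F y := by
    intro k
    induction k with
    | zero => intro y; simp
    | succ k ih =>
      intro y
      have := hper (y + k * (2 * Real.pi * Complex.I))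
      rw [ih] at this
      rw [← this]
      congr 1
      push_cast
      ring
  have hperz : ∀ (k : ℤ) (y : ℂ), F (y + k * (2 * Real.pi * Complex.I)) = F y := by
    intro k y
    obtain ⟨m, rfl | rfl⟩ := k.eq_nat_or_neg
    · exact_mod_cast hperk m y
    · have := hperk m (y + ((-(m : ℤ) : ℤ) : ℂ) * (2 * Real.pi * Complex.I))
      rw [← this]
      congr 1
      push_cast
      ring
  have hζn : 0 < ‖ζ‖ := norm_pos_iff.2 hζ
  have hsub : ball e ‖ζ‖ ⊆ J.source :=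
    (ball_subset_closedBall.trans (closedBall_subset_closedBall hζR)).trans hJ
  -- the neighbourhood of `s`
  have hV : J '' ball e ‖ζ‖ ∈ 𝓝[≠] s := by
    apply mem_nhdsWithin_of_mem_nhds
    refine (J.isOpen_image_of_subset_source isOpen_ball hsub).mem_nhds ?_
    exact ⟨e, mem_ball_self hζn, hJe⟩
  rw [← h.lim, Filter.mem_map, Filter.mem_comap] at hV
  obtain ⟨T, hT, hTV⟩ := hV
  obtain ⟨b, hb⟩ := Filter.mem_atTop_sets.1 hT
  set m : ℝ := max b 1 + 1 with hm
  have hm0 : 0 < m := by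
    have := le_max_right b 1
    linarith
  have hm1 : 1 < m := by
    have := le_max_right b 1
    linarith
  let v0 : ℍ := ⟨(m : ℂ) * Complex.I, by simpa using hm0⟩
  have hv0 : v0.im = m := by
    change ((m : ℂ) * Complex.I).im = m
    simp
  let g : ℝ → ℍ := fun t => t +ᵥ v0
  have hg : Continuous g := continuous_vadd (fun _ => v0) continuous_const
  have hgim : ∀ t, (g t).im = m := fun t => by
    change (t +ᵥ v0).im = m
    rw [UpperHalfPlane.vadd_im, hv0]
  have hUV : ∀ t, U (g t) ∈ J '' ball e ‖ζ‖ := by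
    intro t
    apply hTV
    change (g t).im ∈ T
    rw [hgim]
    apply hb
    have := le_max_left b 1
    linarith
  have hUs : ∀ t, U (g t) ≠ s := by
    intro t ht
    exact h.ns (ht ▸ h.mem (g t))
  have hUt : ∀ t, U (g t) ∈ J.target := by
    intro t
    obtain ⟨z, hz, hzU⟩ := hUV t
    rw [← hzU]
    exact J.map_source (hsub hz)
  have hUc : Continuous U := h.isLocalHomeomorph.continuous
  let η : ℝ → ℂ := fun t => J.symm (U (g t)) - e
  have hηc : Continuous η := by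
    refine Continuous.sub ?_ continuous_const
    exact J.continuousOn_symm.comp_continuous (hUc.comp hg) hUt
  have hη0 : ∀ t, η t ≠ 0 := by
    intro t ht
    have h1 : J.symm (U (g t)) = e := by
      have : J.symm (U (g t)) - e = 0 := ht
      linear_combination this
    apply hUs t
    rw [← J.right_inv (hUt t), h1, hJe]
  have hηζ : ∀ t, ‖η t‖ < ‖ζ‖ := by
    intro t
    obtain ⟨z, hz, hzU⟩ := hUV t
    change ‖J.symm (U (g t)) - e‖ < ‖ζ‖
    rw [← hzU, J.left_inv (hsub hz), ← dist_eq_norm]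
    exact hz
  have hη1 : η 1 = η 0 := by
    change J.symm (U (g 1)) - e = J.symm (U (g 0)) - e
    have : U (g 0) = U (g 1) := by
      rw [h.par (g 0) (g 1) (by rw [hgim]; exact hm1) (by rw [hgim]; exact hm1)]
      refine ⟨1, ?_⟩
      change ((1 : ℝ) +ᵥ v0 : ℍ) = ((0 : ℝ) +ᵥ v0 : ℍ) + ((1 : ℤ) : ℂ)
      rw [UpperHalfPlane.coe_vadd, UpperHalfPlane.coe_vadd]
      push_cast
      ring
    rw [this]
  -- lift to logarithmic coordinates
  have hqc : Continuous fun t : ℝ => η t / ζ := by fun_prop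
  have hq0 : ∀ t, η t / ζ ≠ 0 := fun t => div_ne_zero (hη0 t) hζ
  obtain ⟨Y, ⟨-, hY⟩, -⟩ := Complex.isCoveringMapOn_exp.existsUnique_continuousMap_lifts
    (⟨fun t : ℝ => η t / ζ, hqc⟩ : C(ℝ, ℂ)) (a₀ := 0) (e₀ := Complex.log (η 0 / ζ))
    (by
      change Complex.exp (Complex.log (η 0 / ζ)) = η 0 / ζ
      exact Complex.exp_log (hq0 0))
    (fun t => by
      change η t / ζ ∈ ({0}ᶜ : Set ℂ)
      exact hq0 t)
  have hY' : ∀ t, Complex.exp (Y t) = η t / ζ := fun t => congrFun hY t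
  have hYre : ∀ t, (Y t).re < 0 := by
    intro t
    have h1 : ‖Complex.exp (Y t)‖ < 1 := by
      rw [hY', norm_div, div_lt_one hζn]
      exact hηζ t
    rw [Complex.norm_exp] at h1
    exact Real.exp_lt_one_iff.1 h1
  have hUF : ∀ t, U (F (Y t)) = U (g t) := by
    intro t
    rw [hF, psi_eq (hYre t).le, hY', div_mul_cancel₀ _ hζ]
    change J (e + (J.symm (U (g t)) - e)) = U (g t)
    rw [add_sub_cancel, J.right_inv (hUt t)]
  obtain ⟨k, hk⟩ := Complex.exp_eq_exp_iff_exists_int.1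
    (show Complex.exp (Y 1) = Complex.exp (Y 0) by rw [hY', hY', hη1])
  have hF10 : F (Y 1) = F (Y 0) := by rw [hk, hperz]
  obtain ⟨N, hN, hNU⟩ := h.deck (g 0) (F (Y 0)) (hUF 0).symm
  have h1 : (fun t : ℝ => N • g t) = fun t => F (Y t) := by
    refine h.unique ((continuous_const_smul N).comp hg) (F.continuous.comp Y.continuous)
      (fun t => ?_) 0 hN
    rw [hNU, hUF]
  have h2 : N • g 1 = N • g 0 := by
    have h2 : N • g 1 = F (Y 1) := congrFun h1 1
    rw [h2, hF10, ← hN]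
  have h3 : g 1 = g 0 := smul_left_cancel N h2
  have h4 := congrArg UpperHalfPlane.re h3
  change ((1 : ℝ) +ᵥ v0).re = ((0 : ℝ) +ᵥ v0).re at h4
  rw [UpperHalfPlane.vadd_re, UpperHalfPlane.vadd_re] at h4
  linarith

/-- the core statement -/
lemma core (h : Cov S s U) (hJ : closedBall e R ⊆ J.source) (hJe : J e = s) (hζ : ζ ≠ 0)
    (hζR : ‖ζ‖ ≤ R) (hJS : ∀ z ∈ closedBall e R, z ≠ e → J z ∈ S) (pt : ℍ)
    (hpt : U pt = J (e + ζ))
    (a : ℝ → ℍ) (ha : ContinuousOn a (Ico 0 1)) (ha0 : a 0 = pt)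
    (hUa : ∀ x ∈ Ico (0 : ℝ) 1, U (a x) = J (e + (1 - x : ℝ) * ζ))
    (hah : ∃ x₀ < (1 : ℝ), ∀ x ∈ Ioo x₀ 1, 0 ≤ x → 1 < (a x).im)
    (c : C(unitInterval, ℍ)) (hc0 : c 0 = pt)
    (hUc : ∀ t : unitInterval,
      U (c t) = J (e + Complex.exp (2 * Real.pi * Complex.I * (t : ℝ)) * ζ)) :
    ∃ (M : SL(2, ℝ)) (n : ℤ), (∀ v : ℍ, U (M • v) = U v) ∧ n ≠ 0 ∧ c 1 = M • pt ∧
      ∀ z : ℍ, ((M • z : ℍ) : ℂ) = z + n := by
  obtain ⟨F, hF0, hF⟩ := exists_lift h hJ hζ hζR hJS pt hpt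
  have hFa := lift_real h F pt hF0 hF a ha ha0 hUa
  have hFc := lift_circle h F pt hF0 hF c hc0 hUc
  have hζn : 0 < ‖ζ‖ := norm_pos_iff.2 hζ
  obtain ⟨M, hM0, hM⟩ := h.deck pt (F (2 * Real.pi * Complex.I)) (by
    rw [hpt, hF, psi_eq (by simp), Complex.exp_two_pi_mul_I, one_mul])
  have hper := lift_period h F hF M hM (by rw [hF0]; exact hM0)
  -- the neighbourhood of `e`
  have hW : U '' {z : ℍ | 1 < z.im} ∈ 𝓝[≠] s := by
    rw [← h.lim, Filter.mem_map]
    refine mem_of_superset (preimage_mem_comap (Ioi_mem_atTop (1 : ℝ))) ?_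
    intro z hz
    exact ⟨z, hz, rfl⟩
  have he : e ∈ J.source := hJ (mem_closedBall_self (hζn.le.trans hζR))
  have htend : Tendsto J (𝓝[≠] e) (𝓝[≠] s) := by
    apply tendsto_nhdsWithin_of_tendsto_nhds_of_eventually_within
    · rw [← hJe]
      exact (J.continuousAt he).mono_left nhdsWithin_le_nhds
    · have h1 : closedBall e R ∈ 𝓝 e := closedBall_mem_nhds e (hζn.trans_le hζR)
      filter_upwards [mem_nhdsWithin_of_mem_nhds h1, self_mem_nhdsWithin] with z hz hz'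
      intro hzs
      apply h.ns
      have := hJS z hz hz'
      rwa [show J z = s from hzs] at this
  have hev := htend.eventually hW
  rw [eventually_nhdsWithin_iff, Metric.eventually_nhds_iff] at hev
  obtain ⟨ρ, hρ, hρJ⟩ := hev
  obtain ⟨x₀, hx₀, hx₀a⟩ := hah
  obtain ⟨x1, hx1, hx1'⟩ := exists_between
    (show max (max x₀ 0) (1 - ρ / ‖ζ‖) < 1 by
      have : 0 < ρ / ‖ζ‖ := div_pos hρ hζn
      exact max_lt (max_lt hx₀ one_pos) (by linarith))
  have hx10 : x₀ < x1 := lt_of_le_of_lt ((le_max_left _ _).trans (le_max_left _ _)) hx1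
  have hx1p : 0 ≤ x1 := (lt_of_le_of_lt ((le_max_right _ _).trans (le_max_left _ _)) hx1).le
  have hx1ρ : (1 - x1) * ‖ζ‖ < ρ := by
    have h1 : 1 - ρ / ‖ζ‖ < x1 := lt_of_le_of_lt (le_max_right _ _) hx1
    have h2 : 1 - x1 < ρ / ‖ζ‖ := by linarith
    rwa [lt_div_iff₀ hζn] at h2
  have hx1q : 0 < 1 - x1 := by linarith
  set y0 : ℝ := Real.log (1 - x1) with hy0
  have hy0n : y0 ≤ 0 := Real.log_nonpos hx1q.le (by linarith)
  have hstart : 1 < (F (y0 : ℂ)).im := by
    rw [hFa x1 ⟨hx1p, hx1'⟩]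
    exact hx₀a x1 ⟨hx10, hx1'⟩ hx1p
  have hcirc := circle_high h F y0 hstart (by
    intro θ
    have h1 : U (F (y0 + θ * Complex.I)) ∈ U '' {z : ℍ | 1 < z.im} := by
      rw [hF, psi_eq (by simpa using hy0n)]
      apply hρJ
      · rw [dist_eq_norm, add_sub_cancel_left, norm_mul, Complex.norm_exp]
        have : ((y0 : ℂ) + θ * Complex.I).re = y0 := by simp
        rw [this, hy0, Real.exp_log hx1q]
        exact hx1ρ
      · change e + Complex.exp ((y0 : ℂ) + θ * Complex.I) * ζ ≠ e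
        have := ne_centre (e := e) hζ ((y0 : ℂ) + θ * Complex.I)
        rwa [psi_eq (by simpa using hy0n)] at this
    obtain ⟨p, hp, hpU⟩ := h1
    exact ⟨p, hp, hpU⟩)
  have hz1 : 1 < (M • F (y0 : ℂ)).im := by
    rw [← hper]
    have := hcirc (2 * Real.pi)
    have h2 : ((y0 : ℂ) + ((2 * Real.pi : ℝ) : ℂ) * Complex.I) = y0 + 2 * Real.pi * Complex.I := by
      push_cast
      ring
    rwa [h2] at this
  obtain ⟨n, hn⟩ := h.translation M hM _ hstart hz1
  refine ⟨M, n, hM, ?_, ?_, hn⟩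
  · rintro rfl
    apply not_periodic h hJ hJe hζ hζR F hF
    intro y
    rw [hper]
    apply UpperHalfPlane.ext
    rw [hn]
    simp
  · rw [← hFc, hM0]

end core

theorem goalC9.{v} : GoalC9.{v} := by
  intro X _ _ q r u hu s B J e ζ R pt hs hB hJ hJe hζ hζR hJqr hpt δ a ha ha0 hUa hah c hc0 hUc
  obtain ⟨D, hD⟩ : ∃ D : SL(2, ℝ), D = (δ : SL(2, ℝ)) * B := ⟨_, rfl⟩
  simp only [← hD] at hah ⊢
  have hUD : ∀ z : ℍ, u (D • z) = u (B • z) := by
    intro z
    rw [hD, mul_smul]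
    exact δ.2 (B • z)
  have hcov : Cov ({q, r}ᶜ : Set X) s (fun z : ℍ => u (D • z)) := by
    refine ⟨?_, ?_, ?_, ?_, ?_, ?_⟩
    · exact hu.cov.comp_homeomorph (Homeomorph.smul D)
    · rw [← hu.range]
      ext x
      constructor
      · rintro ⟨z, rfl⟩
        exact ⟨D • z, rfl⟩
      · rintro ⟨z, rfl⟩
        exact ⟨D⁻¹ • z, by simp⟩
    · intro z w hzw
      obtain ⟨γ, hγ, hγz⟩ := hu.deck (D • z) (D • w) hzw
      refine ⟨D⁻¹ * γ * D, ?_, ?_⟩
      · rw [mul_smul, mul_smul, hγz, inv_smul_smul]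
      · intro v
        have h1 : D • (D⁻¹ * γ * D) • v = γ • D • v := by
          rw [mul_smul, mul_smul, smul_inv_smul]
        rw [h1]
        exact hγ (D • v)
    · simp only [hUD]
      exact hB.lim
    · intro z w hz hw
      simp only [hUD]
      exact hB.par z w hz hw
    · rcases hs with rfl | rfl <;> simp
  have hJS : ∀ z ∈ closedBall e R, z ≠ e → J z ∈ ({q, r}ᶜ : Set X) := by
    intro z hz hze
    have := hJqr z hz hze
    simp [this.1, this.2]
  obtain ⟨M, n, hM, hn, hc1, hMz⟩ := core hcov hJ hJe hζ hζR hJS (D⁻¹ • pt)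
    (by rw [smul_inv_smul]; exact hpt)
    (fun x => D⁻¹ • a x) (ha.const_smul D⁻¹) (by rw [ha0])
    (fun x hx => by rw [smul_inv_smul]; exact hUa x hx)
    (hah 1)
    ⟨fun t => D⁻¹ • c t, (continuous_const_smul D⁻¹).comp c.continuous⟩
    (by
      change D⁻¹ • c 0 = D⁻¹ • pt
      rw [hc0])
    (fun t => by
      change u (D • (D⁻¹ • c t)) = _
      rw [smul_inv_smul]
      exact hUc t)
  have hw : D * M * D⁻¹ ∈ deckG u := by
    intro z
    rw [mul_smul, mul_smul]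
    have h1 : u (D • M • D⁻¹ • z) = u (D • D⁻¹ • z) := hM (D⁻¹ • z)
    rw [h1, smul_inv_smul]
  refine ⟨⟨D * M * D⁻¹, hw⟩, n, hn, ?_, ?_⟩
  · change c 1 = (D * M * D⁻¹) • pt
    have h1 : D⁻¹ • c 1 = M • (D⁻¹ • pt) := hc1
    rw [mul_smul, mul_smul, ← h1, smul_inv_smul]
  · intro z
    change (((D⁻¹ * (D * M * D⁻¹) * D) • z : ℍ) : ℂ) = z + n
    have h1 : D⁻¹ * (D * M * D⁻¹) * D = M := by group
    rw [h1]
    exact hMz z

end Pool.Agent.Helper20.PQ
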